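import Pool.Agent.helper62.DP7.Spec

/-!
# Project d7, row UNC (helper51): from the graph without `S` to the graph
-/

set_option autoImplicit false

namespace Pool.Agent.helper62.DP7

open Finset

theorem UNC : UNC_stmt := by
  rintro V W _ G R L A S S' hS hnb ⟨f, h1, h2⟩
  have hsub : A \ S' ⊆ A \ S := sdiff_subset_sdiff (Subset.refl A) hS
  refine ⟨f, fun v hv => h1 v (hsub hv), fun u hu v hv h => h2 u (hsub hu) v (hsub hv) ?_⟩
  obtain ⟨hne, h3⟩ := h
  refine ⟨hne, ?_⟩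
  rcases h3 with h3 | ⟨c, hc, huc, hcv⟩
  · exact Or.inl h3
  · refine Or.inr ⟨c, mem_sdiff.2 ⟨hc, fun hcS => ?_⟩, huc, hcv⟩
    rw [mem_sdiff] at hu
    exact hu.2 (hnb c hcS (mem_nb.2 ⟨hu.1, huc.symm⟩))

end Pool.Agent.helper62.DP7
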